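import Pool.Agent.W609.CR.Stm

set_option autoImplicit false

/-!
# Dimensions under the standard Cremona transformation
-/

namespace Pool.Agent.W131.CR

open MvPolynomial Finset
open Pool.Agent.W609.CR

/-- the linear version of the reversal -/
noncomputable def revL {K : Type} [Field K] (N : Fin 3 →₀ ℕ) :
    MvPolynomial (Fin 3) K →ₗ[K] MvPolynomial (Fin 3) K where
  toFun f := ∑ a ∈ Finset.Icc 0 N, monomial (N - a) (coeff a f)
  map_add' f g := by
    rw [← Finset.sum_add_distrib]
    refine Finset.sum_congr rfl fun a _ => ?_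
    rw [coeff_add, map_add]
  map_smul' c f := by
    rw [Finset.smul_sum]
    refine Finset.sum_congr rfl fun a _ => ?_
    rw [coeff_smul, map_smul, RingHom.id_apply]

theorem revL_eq {K : Type} [Field K] (N : Fin 3 →₀ ℕ) (f : MvPolynomial (Fin 3) K)
    (hN : ∀ a ∈ f.support, a ≤ N) : revL N f = rev (n := 2) N f := by
  change ∑ a ∈ Finset.Icc 0 N, monomial (N - a) (coeff a f) = _
  unfold rev
  symm
  refine Finset.sum_subset ?_ ?_
  · intro a ha
    exact Finset.mem_Icc.2 ⟨zero_le, hN a ha⟩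
  · intro a _ ha
    rw [notMem_support_iff.1 ha, map_zero]

theorem t_stdv : P_STDV := by
  intro K _ d m ι _ u w hu h01 h02 h12
  classical
  let N : Fin 3 →₀ ℕ := Finsupp.equivFunOnFinite.symm (fun k => d - m k)
  have hNk : ∀ k, N k = d - m k := fun k => rfl
  have hNdeg : N.degree = (d - m 0) + (d - m 1) + (d - m 2) := by
    rw [Finsupp.degree_eq_sum, Fin.sum_univ_three, hNk, hNk, hNk]
  set d' : ℕ := 2 * d - (m 0 + m 1 + m 2) with hd'
  set src := VS (Sum.elim bs u) (Sum.elim m w) d with hsrc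
  set tgt := VS (Sum.elim bs fun j k => (u j k)⁻¹)
        (Sum.elim (![d - (m 1 + m 2), d - (m 0 + m 2), d - (m 0 + m 1)] : Fin 3 → ℕ) w) d'
    with htgt
  have hsrc1 : ∀ f ∈ src, f.IsHomogeneous d ∧
      (∀ k, f ∈ (RingHom.ker (MvPolynomial.eval (bas (n := 2) (K := K) k))) ^ (m k)) ∧
      ∀ j, f ∈ (RingHom.ker (MvPolynomial.eval (u j))) ^ (w j) := by
    rintro f ⟨h1, h2⟩
    have h3 : f ∈ ⨅ i, (RingHom.ker (MvPolynomial.eval ((Sum.elim bs u : _ → Fin 3 → K) i))) ^
      ((Sum.elim m w : _ → ℕ) i) := h2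
    rw [Submodule.mem_iInf] at h3
    exact ⟨h1, fun k => h3 (Sum.inl k), fun j => h3 (Sum.inr j)⟩
  have hexp : ∀ f ∈ src, ∀ a ∈ f.support, a ≤ N := by
    intro f hf a ha k
    have h1 := exponent_le (n := 2) (hsrc1 f hf).1 k ((hsrc1 f hf).2.1 k) ha
    rw [hNk]
    omega
  have hdeg3 : ∀ f ∈ src, ∀ a ∈ f.support, a 0 + a 1 + a 2 = d := by
    intro f hf a ha
    have h1 := homog_degree (n := 2) (hsrc1 f hf).1 ha
    rw [Finsupp.degree_eq_sum] at h1
    have h2 : ∑ i : Fin 3, a i = a 0 + a 1 + a 2 := Fin.sum_univ_three _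
    rw [← h2]
    exact h1
  have hmap : ∀ f ∈ src, revL N f ∈ tgt := by
    intro f hf
    rw [revL_eq N f (hexp f hf)]
    obtain ⟨h1, h2, h3⟩ := hsrc1 f hf
    refine ⟨?_, ?_⟩
    · have h4 := rev_homog (n := 2) h1 (hexp f hf)
      have h5 : N.degree - d = d' := by
        rw [hNdeg, hd']
        omega
      rw [h5] at h4
      exact h4
    · change rev (n := 2) N f ∈ ⨅ i, (RingHom.ker (MvPolynomial.eval
        ((Sum.elim bs (fun j k => (u j k)⁻¹) : _ → Fin 3 → K) i))) ^
        ((Sum.elim (![d - (m 1 + m 2), d - (m 0 + m 2), d - (m 0 + m 1)] : Fin 3 → ℕ) w :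
          _ → ℕ) i)
      rw [Submodule.mem_iInf]
      rintro (k | j)
      · refine mem_of_exponents (n := 2) k ?_
        intro a ha
        obtain ⟨b, hb, rfl⟩ := mem_support_rev ha
        have hbN := hexp f hf b hb
        have hbd := hdeg3 f hf b hb
        have e0 := hbN 0
        have e1 := hbN 1
        have e2 := hbN 2
        rw [hNk] at e0 e1 e2
        have h6 : (N - b) k + ∑ l ∈ univ.erase k, (N - b) l =
            (N - b) 0 + (N - b) 1 + (N - b) 2 := by
          rw [Finset.add_sum_erase univ (fun l => (N - b) l) (mem_univ k)]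
          exact Fin.sum_univ_three _
        have g0 : (N - b) 0 = (d - m 0) - b 0 := by rw [Finsupp.tsub_apply, hNk]
        have g1 : (N - b) 1 = (d - m 1) - b 1 := by rw [Finsupp.tsub_apply, hNk]
        have g2 : (N - b) 2 = (d - m 2) - b 2 := by rw [Finsupp.tsub_apply, hNk]
        fin_cases k
        · change d - (m 1 + m 2) ≤ ∑ l ∈ univ.erase (0 : Fin 3), (N - b) l
          change (N - b) 0 + ∑ l ∈ univ.erase (0 : Fin 3), (N - b) l = _ at h6
          omega
        · change d - (m 0 + m 2) ≤ ∑ l ∈ univ.erase (1 : Fin 3), (N - b) l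
          change (N - b) 1 + ∑ l ∈ univ.erase (1 : Fin 3), (N - b) l = _ at h6
          omega
        · change d - (m 0 + m 1) ≤ ∑ l ∈ univ.erase (2 : Fin 3), (N - b) l
          change (N - b) 2 + ∑ l ∈ univ.erase (2 : Fin 3), (N - b) l = _ at h6
          omega
      · exact rev_mem (n := 2) (hexp f hf) (u j) (hu j) (w j) (h3 j)
  have hfin : FiniteDimensional K tgt := by
    have h1 : Module.Finite K (homogeneousSubmodule (Fin 3) K d') :=
      Module.Finite.iff_fg.2 (homogeneousSubmodule_fg (Fin 3) K d')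
    have h2 : tgt ≤ homogeneousSubmodule (Fin 3) K d' := inf_le_left
    exact Submodule.finiteDimensional_of_le h2
  let g : src →ₗ[K] tgt := ((revL N).comp src.subtype).codRestrict tgt (fun f => hmap f f.2)
  have hg : Function.Injective g := by
    rw [← LinearMap.ker_eq_bot, LinearMap.ker_eq_bot']
    rintro ⟨f, hf⟩ h0
    have h1 : revL N f = 0 := congrArg Subtype.val h0
    rw [revL_eq N f (hexp f hf)] at h1
    by_contra hne
    have hf0 : f ≠ 0 := fun h => hne (Subtype.ext h)
    exact rev_ne_zero (n := 2) (hexp f hf) hf0 h1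
  exact LinearMap.finrank_le_finrank_of_injective hg

end Pool.Agent.W131.CR
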